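import Mathlib
import Pool.Agent.Y278.MK.Stm

/-! Project MK (helper278): `S_CMP` from `S_HOL` and `S_CRS`. -/

set_option autoImplicit false

namespace Pool.Agent.Y458.MK

open MeasureTheory Set Real Filter Topology
open scoped FourierTransform ContDiff Pointwise
open Pool.Agent.Y278.MK

lemma good_meas {r0 R : ℝ} {Ω : Set ℂ} (h : Good r0 R Ω) : MeasurableSet Ω := h.op.measurableSet

lemma good_vol_lt {r0 R : ℝ} {Ω : Set ℂ} (h : Good r0 R Ω) : volume Ω < ⊤ :=
  lt_of_le_of_lt (measure_mono h.out) measure_ball_lt_top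

lemma rep_hcs {r0 R lam C : ℝ} {Ω : Set ℂ} {W : ℂ → ℂ} (h : Good r0 R Ω) (hW : Rep Ω lam C W) :
    HasCompactSupport W := by
  apply HasCompactSupport.of_support_subset_isCompact (isCompact_closedBall (0 : ℂ) R)
  intro x hx
  by_contra hcon
  apply hx
  apply hW.off
  intro hxΩ
  exact hcon (Metric.ball_subset_closedBall (h.out hxΩ))

lemma rep_int {r0 R lam C : ℝ} {Ω : Set ℂ} {W : ℂ → ℂ} (h : Good r0 R Ω) (hW : Rep Ω lam C W) :
    Integrable W := hW.cont.integrable_of_hasCompactSupport (rep_hcs h hW)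

lemma four_zero (f : ℂ → ℂ) : 𝓕 f 0 = ∫ x, f x := by
  rw [Real.fourier_eq]
  simp

lemma rep_total {r0 R lam C : ℝ} {Ω : Set ℂ} {W : ℂ → ℂ} (h : Good r0 R Ω) (hlam : 0 < lam)
    (hW : Rep Ω lam C W) : ∫ x, W x = -((volume Ω).toReal : ℂ) := by
  have h1 := hW.rel 0
  rw [four_zero, four_zero, integral_indicator (good_meas h)] at h1
  simp only [norm_zero, ne_eq, OfNat.ofNat_ne_zero, not_false_eq_true, zero_pow, mul_zero, zero_sub,
    Complex.ofReal_neg, integral_const, MeasurableSet.univ,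
    measureReal_restrict_apply, univ_inter] at h1
  have hl : (lam : ℂ) ≠ 0 := by exact_mod_cast hlam.ne'
  have h2 : (lam : ℂ) * (∫ x, W x) = (lam : ℂ) * (-((volume Ω).toReal : ℂ)) := by
    have h3 : (lam : ℂ) * (∫ x, W x) = -((lam : ℂ) * (volume.real Ω • (1 : ℂ))) := by
      rw [← h1]; ring
    rw [h3]
    simp [Measure.real]
  exact mul_left_cancel₀ hl h2

lemma rep_part {r0 R lam C : ℝ} {Ω Ω' : Set ℂ} {W : ℂ → ℂ} (h : Good r0 R Ω) (h' : Good r0 R Ω')
    (hlam : 0 < lam) (hW : Rep Ω lam C W) :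
    ∫ x in Ω', W x = -((volume Ω).toReal : ℂ) - ∫ x in Ω \ Ω', W x := by
  have hi := rep_int h hW
  have e1 : (∫ x in Ω', W x) + ∫ x in Ω'ᶜ, W x = ∫ x, W x :=
    integral_add_compl (good_meas h') hi
  have e2 : ∫ x in Ω'ᶜ, W x = ∫ x in Ω \ Ω', W x := by
    apply setIntegral_eq_of_subset_of_forall_sdiff_eq_zero (good_meas h').compl
    · exact fun x hx => hx.2
    · intro x hx
      apply hW.off
      intro hxΩ
      exact hx.2 ⟨hxΩ, hx.1⟩
  rw [rep_total h hlam hW, e2] at e1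
  rw [← e1]; ring

lemma bound_diff {r0 R lam C δ : ℝ} {Ω Ω' : Set ℂ} {W : ℂ → ℂ} (hr0 : 0 < r0) (hR : 0 < R)
    (hC : 0 < C) (h : Good r0 R Ω) (h' : Good r0 R Ω') (hW : Rep Ω lam C W) (hδ : 0 ≤ δ)
    (hδ1 : δ ≤ 1) (hin : ∀ x ∈ Ω, (1 + δ)⁻¹ • x ∈ Ω') :
    ‖∫ x in Ω \ Ω', W x‖ ≤
      C * √(δ * R) * (3 * δ * (volume (Metric.ball (0 : ℂ) R)).toReal) := by
  have hpos : 0 < 1 + δ := by linarith
  have hball : volume (Metric.ball (0 : ℂ) R) < ⊤ := measure_ball_lt_top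
  -- the bound for `W`
  have hb : ∀ x ∈ Ω \ Ω', ‖W x‖ ≤ C * √(δ * R) := by
    intro x hx
    have h1 : (1 + δ) • x ∉ Ω := by
      intro hcon
      apply hx.2
      have := hin _ hcon
      rwa [smul_smul, inv_mul_cancel₀ hpos.ne', one_smul] at this
    have h2 := hW.hol x ((1 + δ) • x)
    rw [hW.off _ h1, sub_zero] at h2
    refine h2.trans (mul_le_mul_of_nonneg_left (Real.sqrt_le_sqrt ?_) hC.le)
    have e : x - (1 + δ) • x = -(δ • x) := by
      rw [add_smul, one_smul]; ring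
    rw [e, norm_neg, norm_smul, Real.norm_of_nonneg hδ]
    have hx2 : ‖x‖ < R := by
      have := h.out hx.1
      simpa using this
    exact mul_le_mul_of_nonneg_left hx2.le hδ
  -- the volume
  have hvol : (volume (Ω \ Ω')).toReal ≤ 3 * δ * (volume (Metric.ball (0 : ℂ) R)).toReal := by
    set D : Set ℂ := (1 + δ) • Ω' with hD
    have hΩD : Ω ⊆ D := by
      intro x hx
      rw [hD, mem_smul_set_iff_inv_smul_mem₀ hpos.ne']
      exact hin x hx
    have h0 : (0 : ℂ) ∈ Ω' := h'.inn (by simpa using hr0)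
    have hΩ'D : Ω' ⊆ D := by
      intro x hx
      rw [hD, mem_smul_set_iff_inv_smul_mem₀ hpos.ne']
      have h3 := h'.conv h0 hx (a := 1 - (1 + δ)⁻¹) (b := (1 + δ)⁻¹)
        (by rw [sub_nonneg]; exact inv_le_one_of_one_le₀ (by linarith)) (by positivity) (by ring)
      simpa using h3
    have hvD : volume D = ENNReal.ofReal ((1 + δ) ^ 2) * volume Ω' := by
      rw [hD, Measure.addHaar_smul, Complex.finrank_real_complex, abs_of_nonneg (by positivity)]
    have hvDt : volume D < ⊤ := by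
      rw [hvD]
      exact ENNReal.mul_lt_top ENNReal.ofReal_lt_top (good_vol_lt h')
    have h4 : volume (Ω \ Ω') ≤ volume (D \ Ω') := measure_mono (sdiff_subset_sdiff_left hΩD)
    have h5 : volume (D \ Ω') = volume D - volume Ω' :=
      measure_sdiff hΩ'D (good_meas h').nullMeasurableSet (good_vol_lt h').ne
    have h6 : (volume (D \ Ω')).toReal = ((1 + δ) ^ 2 - 1) * (volume Ω').toReal := by
      rw [h5, ENNReal.toReal_sub_of_le (measure_mono hΩ'D) hvDt.ne, hvD, ENNReal.toReal_mul,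
        ENNReal.toReal_ofReal (by positivity)]
      ring
    have h7 : (volume Ω').toReal ≤ (volume (Metric.ball (0 : ℂ) R)).toReal :=
      ENNReal.toReal_mono hball.ne (measure_mono h'.out)
    have h8 : (volume (Ω \ Ω')).toReal ≤ (volume (D \ Ω')).toReal :=
      ENNReal.toReal_mono (ne_top_of_le_ne_top hvDt.ne (measure_mono sdiff_subset)) h4
    refine h8.trans ?_
    rw [h6]
    have h9 : (1 + δ) ^ 2 - 1 ≤ 3 * δ := by nlinarith
    exact mul_le_mul h9 h7 ENNReal.toReal_nonneg (by positivity)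
  have hfin : volume (Ω \ Ω') < ⊤ := lt_of_le_of_lt (measure_mono sdiff_subset) (good_vol_lt h)
  have h10 := norm_setIntegral_le_of_norm_le_const (μ := volume) hfin hb
  refine h10.trans ?_
  exact mul_le_mul_of_nonneg_left hvol (by positivity)

theorem cmp_thm (h1 : S_HOL) (h2 : S_CRS) : S_CMP := by
  intro r0 R L0 L1 hr0 hR hL0
  obtain ⟨C, hC, hH⟩ := h1 r0 R L0 L1 hr0 hR hL0
  set V : ℝ := (volume (Metric.ball (0 : ℂ) R)).toReal with hV
  have hV0 : 0 ≤ V := ENNReal.toReal_nonneg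
  refine ⟨6 * C * √R * V + 1, by positivity, ?_⟩
  intro Ω Ω' lam δ hΩ hΩ' hl0 hl1 hS hS' hδ hδ1 hin hin'
  have hlam : 0 < lam := lt_of_lt_of_le hL0 hl0
  obtain ⟨W, hW⟩ := hH Ω lam hΩ hl0 hl1 hS
  obtain ⟨W', hW'⟩ := hH Ω' lam hΩ' hl0 hl1 hS'
  have hc := h2 r0 R lam C Ω Ω' W W' hlam hΩ hΩ' hW hW'
  rw [rep_part hΩ hΩ' hlam hW, rep_part hΩ' hΩ hlam hW'] at hc
  have b1 := bound_diff hr0 hR hC hΩ hΩ' hW hδ hδ1 hin
  have b2 := bound_diff hr0 hR hC hΩ' hΩ hW' hδ hδ1 hin'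
  have e1 : (((volume Ω).toReal - (volume Ω').toReal : ℝ) : ℂ) =
      (∫ x in Ω' \ Ω, W' x) - ∫ x in Ω \ Ω', W x := by
    push_cast
    linear_combination (-1 : ℂ) * hc
  have e2 : |(volume Ω).toReal - (volume Ω').toReal| =
      ‖(∫ x in Ω' \ Ω, W' x) - ∫ x in Ω \ Ω', W x‖ := by
    rw [← e1, Complex.norm_real, Real.norm_eq_abs]
  rw [e2]
  refine (norm_sub_le _ _).trans ?_
  have e3 : √(δ * R) = √δ * √R := Real.sqrt_mul hδ R
  rw [e3] at b1 b2
  have hsδ : 0 ≤ δ * √δ := by positivity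
  calc ‖∫ x in Ω' \ Ω, W' x‖ + ‖∫ x in Ω \ Ω', W x‖ ≤
      C * (√δ * √R) * (3 * δ * V) + C * (√δ * √R) * (3 * δ * V) := add_le_add b2 b1
    _ = (6 * C * √R * V) * (δ * √δ) := by ring
    _ ≤ (6 * C * √R * V + 1) * (δ * √δ) := by
        apply mul_le_mul_of_nonneg_right _ hsδ
        linarith

end Pool.Agent.Y458.MK
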