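import Mathlib
import Pool.Agent.Y278.MK.Stm

/-! Project MK (helper278): `S_QC` from `S_CMP`, `S_SCALE`, `S_AREA`. -/

set_option autoImplicit false

namespace Pool.Agent.Y458.MK

open MeasureTheory Set Real Filter Topology
open scoped ContDiff Pointwise
open Pool.Agent.Y278.MK

lemma per_max {g : ℝ → ℝ} (hc : Continuous g) (hp : ∀ x, g (x + 2 * π) = g x) :
    ∃ M : ℝ, 0 < M ∧ ∀ x, g x ≤ M := by
  obtain ⟨y, _, hy⟩ := (isCompact_Icc (a := (0 : ℝ)) (b := 2 * π)).exists_isMaxOn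
    ⟨0, by simp [Real.pi_pos.le]⟩ hc.continuousOn
  refine ⟨|g y| + 1, by positivity, fun x => ?_⟩
  have hper : Function.Periodic g (2 * π) := hp
  obtain ⟨z, hz, e⟩ := hper.exists_mem_Ico₀ Real.two_pi_pos x
  rw [e]
  have := hy (Ico_subset_Icc_self hz)
  simp only [mem_ofPred_eq] at this
  linarith [le_abs_self (g y)]

lemma per_min {g : ℝ → ℝ} (hc : Continuous g) (hp : ∀ x, g (x + 2 * π) = g x)
    (h0 : ∀ x, 0 < g x) : ∃ m : ℝ, 0 < m ∧ ∀ x, m ≤ g x := by
  obtain ⟨y, _, hy⟩ := (isCompact_Icc (a := (0 : ℝ)) (b := 2 * π)).exists_isMinOn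
    ⟨0, by simp [Real.pi_pos.le]⟩ hc.continuousOn
  refine ⟨g y, h0 y, fun x => ?_⟩
  have hper : Function.Periodic g (2 * π) := hp
  obtain ⟨z, hz, e⟩ := hper.exists_mem_Ico₀ Real.two_pi_pos x
  rw [e]
  exact hy (Ico_subset_Icc_self hz)

lemma dot_le (x : ℂ) (θ : ℝ) : x.re * cos θ + x.im * sin θ ≤ ‖x‖ := by
  have h1 : ‖x‖ ^ 2 = x.re ^ 2 + x.im ^ 2 := by
    rw [Complex.sq_norm, Complex.normSq_apply]; ring
  have h2 := Real.sin_sq_add_cos_sq θ
  refine (abs_le_of_sq_le_sq' ?_ (norm_nonneg x)).2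
  rw [h1]
  have h3 : x.re ^ 2 + x.im ^ 2 = (x.re ^ 2 + x.im ^ 2) * (sin θ ^ 2 + cos θ ^ 2) := by
    rw [h2, mul_one]
  rw [h3]
  nlinarith [sq_nonneg (x.re * sin θ - x.im * cos θ)]

lemma exists_dot (x : ℂ) : ∃ θ : ℝ, x.re * cos θ + x.im * sin θ = ‖x‖ := by
  refine ⟨Complex.arg x, ?_⟩
  have h1 := Complex.norm_mul_cos_arg x
  have h2 := Complex.norm_mul_sin_arg x
  have h3 := Real.sin_sq_add_cos_sq (Complex.arg x)
  rw [← h1, ← h2]
  linear_combination ‖x‖ * h3

lemma om_open {g : ℝ → ℝ} (hc : Continuous g) (hp : ∀ x, g (x + 2 * π) = g x) :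
    IsOpen (Om g) := by
  rw [Metric.isOpen_iff]
  intro x hx
  have hf : Continuous (fun θ => g θ - (x.re * cos θ + x.im * sin θ)) := by fun_prop
  obtain ⟨m, hm, hm2⟩ := per_min hf (fun θ => by
    rw [hp, Real.cos_add_two_pi, Real.sin_add_two_pi]) (fun θ => by
      have := hx θ
      linarith)
  refine ⟨m, hm, fun y hy θ => ?_⟩
  have h1 := dot_le (y - x) θ
  have h2 : ‖y - x‖ < m := by simpa [dist_eq_norm] using hy
  have h3 := hm2 θ
  simp only [Complex.sub_re, Complex.sub_im] at h1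
  linarith

lemma om_convex (g : ℝ → ℝ) : Convex ℝ (Om g) := by
  intro x hx y hy a b ha hb hab θ
  have h1 := hx θ
  have h2 := hy θ
  simp only [Complex.add_re, Complex.add_im, Complex.real_smul, Complex.mul_re, Complex.ofReal_re,
    Complex.ofReal_im, Complex.mul_im, zero_mul, sub_zero, add_zero]
  have e : (a * x.re + b * y.re) * cos θ + (a * x.im + b * y.im) * sin θ =
      a * (x.re * cos θ + x.im * sin θ) + b * (y.re * cos θ + y.im * sin θ) := by ring
  rw [e]
  rcases ha.eq_or_lt with ha0 | ha0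
  · have hb1 : b = 1 := by linarith
    rw [← ha0, hb1]
    linarith
  · have h3 : a * (x.re * cos θ + x.im * sin θ) < a * g θ := mul_lt_mul_of_pos_left h1 ha0
    have h4 : b * (y.re * cos θ + y.im * sin θ) ≤ b * g θ := mul_le_mul_of_nonneg_left h2.le hb
    calc a * (x.re * cos θ + x.im * sin θ) + b * (y.re * cos θ + y.im * sin θ) <
        a * g θ + b * g θ := by linarith
      _ = g θ := by rw [← add_mul, hab, one_mul]

lemma om_good {g : ℝ → ℝ} (hc : Continuous g) (hp : ∀ x, g (x + 2 * π) = g x) {a b : ℝ}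
    (ha : ∀ θ, a ≤ g θ) (hb : ∀ θ, g θ ≤ b) : Good a b (Om g) := by
  refine ⟨om_open hc hp, om_convex g, ?_, ?_⟩
  · intro x hx θ
    have h1 := dot_le x θ
    have h2 : ‖x‖ < a := by simpa using hx
    linarith [ha θ]
  · intro x hx
    obtain ⟨θ, hθ⟩ := exists_dot x
    have h1 := hx θ
    rw [hθ] at h1
    have : ‖x‖ < b := lt_of_lt_of_le h1 (hb θ)
    simpa using this

lemma EE_zero : EE 0 = 1 / 2 := by
  unfold EE
  simp only [mul_zero, Complex.exp_zero, mul_one]
  have h : (∫ r in (0 : ℝ)..1, (r : ℂ)) = ((∫ r in (0 : ℝ)..1, r : ℝ) : ℂ) :=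
    intervalIntegral.integral_ofReal
  rw [h, integral_id]
  norm_num

lemma om_vol (h3 : S_AREA) {g : ℝ → ℝ} (h1 : C2P g) (hpos : ∀ θ, 0 < g θ)
    (hrho : ∀ θ, 0 < rho g θ) : (volume (Om g)).toReal = area g := by
  have h := h3 g h1 hpos hrho 0
  have hl : (∫ x in Om g, Complex.exp (Complex.I * (((0 : ℝ) : ℂ) * x.re))) =
      ((volume (Om g)).toReal : ℂ) := by
    simp [Measure.real]
  rw [hl] at h
  have hr : (∫ θ in (0 : ℝ)..(2 * π), EE (Complex.I * ((0 : ℝ) : ℂ) * yy g θ) *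
      ((g θ : ℂ) * (rho g θ : ℂ))) = ((area g : ℝ) : ℂ) := by
    have e1 : ∀ θ : ℝ, EE (Complex.I * ((0 : ℝ) : ℂ) * yy g θ) *
      ((g θ : ℂ) * (rho g θ : ℂ)) = (((1 / 2) * (g θ * rho g θ) : ℝ) : ℂ) := by
      intro θ
      rw [Complex.ofReal_zero, mul_zero, zero_mul, EE_zero]
      push_cast
      ring
    simp_rw [e1]
    rw [intervalIntegral.integral_ofReal, intervalIntegral.integral_const_mul]
    rfl
  rw [hr] at h
  exact_mod_cast h

lemma c2p_comb {h k : ℝ → ℝ} (hh : C2P h) (hk : C2P k) (t : ℝ) :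
    C2P (fun θ => h θ + t * k θ) := by
  refine ⟨hh.1.add (contDiff_const.mul hk.1), fun x => ?_⟩
  simp only [hh.2, hk.2]

lemma rho_comb {h k : ℝ → ℝ} (hh : C2P h) (hk : C2P k) (t : ℝ) (x : ℝ) :
    rho (fun θ => h θ + t * k θ) x = rho h x + t * rho k x := by
  have dh : Differentiable ℝ h := hh.1.differentiable (by norm_num)
  have dk : Differentiable ℝ k := hk.1.differentiable (by norm_num)
  have h1 : ContDiff ℝ 1 (deriv h) := hh.1.iterate_deriv' 1 1
  have k1 : ContDiff ℝ 1 (deriv k) := hk.1.iterate_deriv' 1 1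
  have dh1 : Differentiable ℝ (deriv h) := h1.differentiable (by norm_num)
  have dk1 : Differentiable ℝ (deriv k) := k1.differentiable (by norm_num)
  have e1 : deriv (fun θ => h θ + t * k θ) = fun θ => deriv h θ + t * deriv k θ := by
    funext θ
    rw [deriv_fun_add (dh θ) ((dk θ).const_mul t), deriv_const_mul _ (dk θ)]
  unfold rho
  rw [e1, deriv_fun_add (dh1 x) ((dk1 x).const_mul t), deriv_const_mul _ (dk1 x)]
  ring

lemma scaled_set {g : ℝ → ℝ} {r : ℝ} (hr : 0 < r) :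
    {x : ℂ | r⁻¹ • x ∈ Om g} = Om (fun θ => r * g θ) := by
  ext x
  simp only [mem_ofPred_eq, Om, Complex.real_smul, Complex.mul_re, Complex.mul_im,
    Complex.ofReal_re, Complex.ofReal_im, zero_mul, sub_zero, add_zero]
  refine forall_congr' fun θ => ?_
  have e : r⁻¹ * x.re * cos θ + r⁻¹ * x.im * sin θ = r⁻¹ * (x.re * cos θ + x.im * sin θ) := by ring
  rw [e, inv_mul_lt_iff₀ hr]

lemma scaled_vol {Ω : Set ℂ} {r : ℝ} (hr : 0 < r) :
    (volume {x : ℂ | r⁻¹ • x ∈ Ω}).toReal = r ^ 2 * (volume Ω).toReal := by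
  have e : {x : ℂ | r⁻¹ • x ∈ Ω} = r • Ω := by
    ext x
    rw [mem_smul_set_iff_inv_smul_mem₀ hr.ne']
    rfl
  rw [e, Measure.addHaar_smul, Complex.finrank_real_complex, abs_of_nonneg (by positivity),
    ENNReal.toReal_mul, ENNReal.toReal_ofReal (by positivity)]

lemma om_incl {f g : ℝ → ℝ} {d : ℝ} (hd : 0 ≤ d) (hfg : ∀ θ, f θ ≤ (1 + d) * g θ) :
    ∀ x ∈ Om f, (1 + d)⁻¹ • x ∈ Om g := by
  intro x hx
  have hpos : 0 < 1 + d := by linarith
  have h1 : x ∈ {x : ℂ | (1 + d)⁻¹ • x ∈ Om g} := by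
    rw [scaled_set hpos]
    intro θ
    exact lt_of_lt_of_le (hx θ) (hfg θ)
  exact h1

lemma sqrt_ratio {L0 a b : ℝ} (hL0 : 0 < L0) (_ha : L0 ≤ a) (hb : L0 ≤ b) :
    √(a / b) ≤ 1 + |a - b| / L0 := by
  have hb0 : 0 < b := lt_of_lt_of_le hL0 hb
  have hx : 0 ≤ |a - b| / L0 := by positivity
  have h1 : a / b ≤ 1 + |a - b| / L0 := by
    rw [div_le_iff₀ hb0]
    have h2 : a ≤ b + |a - b| := by linarith [le_abs_self (a - b)]
    have h3 : |a - b| ≤ |a - b| / L0 * b := by
      rw [div_mul_eq_mul_div, le_div_iff₀ hL0]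
      exact mul_le_mul_of_nonneg_left hb (abs_nonneg _)
    nlinarith
  rw [Real.sqrt_le_left (by linarith)]
  nlinarith

theorem qc_thm (h1 : S_CMP) (h2 : S_SCALE) (h3 : S_AREA) : S_QC := by
  intro h k hh hk hh0 hk0 hrh hrk T0 T1 L0 L1 hT0 hL0
  by_cases hL : L0 ≤ L1
  swap
  · exact ⟨1, one_pos, fun s t lam mu _ _ _ _ a1 a2 => absurd (a1.trans a2) hL⟩
  by_cases hT : T0 ≤ T1
  swap
  · exact ⟨1, one_pos, fun s t lam mu a1 a2 => absurd (a1.trans a2) hT⟩
  have hL1 : 0 < L1 := lt_of_lt_of_le hL0 hL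
  have hT1 : 0 < T1 := lt_of_lt_of_le hT0 hT
  have ch : Continuous h := hh.1.continuous
  have ck : Continuous k := hk.1.continuous
  obtain ⟨Mh, hMh, hMh2⟩ := per_max ch hh.2
  obtain ⟨Mk, hMk, hMk2⟩ := per_max ck hk.2
  obtain ⟨m, hm, hm2⟩ := per_min ck hk.2 hk0
  set a : ℝ := T0 * m with ha
  set b : ℝ := Mh + T1 * Mk with hb
  have ha0 : 0 < a := by positivity
  have hb0 : 0 < b := by positivity
  set Q : ℝ := √(L1 / L0) with hQ
  have hQ1 : 1 ≤ Q := by
    rw [hQ, Real.one_le_sqrt, one_le_div₀ hL0]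
    exact hL
  have hQ0 : 0 < Q := by linarith
  -- bounds for the functions
  have bd1 : ∀ t, T0 ≤ t → t ≤ T1 → ∀ θ, a ≤ h θ + t * k θ := by
    intro t ht0 _ θ
    have : T0 * m ≤ t * k θ := mul_le_mul ht0 (hm2 θ) hm.le (by linarith)
    linarith [hh0 θ]
  have bd2 : ∀ t, T0 ≤ t → t ≤ T1 → ∀ θ, h θ + t * k θ ≤ b := by
    intro t _ ht1 θ
    have : t * k θ ≤ T1 * Mk := mul_le_mul ht1 (hMk2 θ) (hk0 θ).le hT1.le
    linarith [hMh2 θ]
  have vol : ∀ t, T0 ≤ t → t ≤ T1 → (volume (Om fun θ => h θ + t * k θ)).toReal =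
      area (fun θ => h θ + t * k θ) := by
    intro t ht0 ht1
    apply om_vol h3 (c2p_comb hh hk t)
    · intro θ
      exact lt_of_lt_of_le ha0 (bd1 t ht0 ht1 θ)
    · intro θ
      rw [rho_comb hh hk]
      have : 0 < t * rho k θ := mul_pos (by linarith) (hrk θ)
      linarith [hrh θ]
  obtain ⟨C, hC, hCMP⟩ := h1 (a / Q) (b * Q) L0 L1 (by positivity) (by positivity) hL0
  set C1 : ℝ := 1 / T0 + 1 / L0 + 1 / (T0 * L0) with hC1
  have hC10 : 0 < C1 := by positivity
  set A : ℝ := (volume (Metric.ball (0 : ℂ) b)).toReal with hA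
  have hA0 : 0 ≤ A := ENNReal.toReal_nonneg
  set e0 : ℝ := 1 / (1 + C1) with he0
  have he00 : 0 < e0 := by positivity
  have he01 : e0 ≤ 1 := by
    rw [he0, div_le_one (by positivity)]; linarith
  have he02 : C1 * e0 ≤ 1 := by
    rw [he0, mul_one_div, div_le_one (by positivity)]; linarith
  refine ⟨L1 * (C * (C1 * √C1)) + L1 * A / (e0 * √e0) + 1, by positivity, ?_⟩
  intro s t lam mu hs0 hs1 ht0 ht1 hl0 hl1 hm0 hm1 hSt hSs
  have hlam : 0 < lam := lt_of_lt_of_le hL0 hl0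
  have hmu : 0 < mu := lt_of_lt_of_le hL0 hm0
  set e : ℝ := |s - t| + |mu - lam| with he
  have he_nn : 0 ≤ e := by positivity
  have cg : ∀ u : ℝ, Continuous (fun θ => h θ + u * k θ) := fun u => by fun_prop
  have pg : ∀ u : ℝ, ∀ x, (fun θ => h θ + u * k θ) (x + 2 * π) = (fun θ => h θ + u * k θ) x :=
    fun u => (c2p_comb hh hk u).2
  have area_nn : ∀ u, T0 ≤ u → u ≤ T1 → 0 ≤ area (fun θ => h θ + u * k θ) ∧
      area (fun θ => h θ + u * k θ) ≤ A := by
    intro u hu0 hu1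
    rw [← vol u hu0 hu1]
    refine ⟨ENNReal.toReal_nonneg, ENNReal.toReal_mono measure_ball_lt_top.ne (measure_mono ?_)⟩
    exact (om_good (cg u) (pg u) (bd1 u hu0 hu1) (bd2 u hu0 hu1)).out
  have hee : 0 ≤ e * √e := by positivity
  by_cases hcase : e ≤ e0
  · -- small distance
    set r : ℝ := √(lam / mu) with hr
    have hr0 : 0 < r := Real.sqrt_pos.2 (by positivity)
    have hr2 : r ^ 2 = lam / mu := Real.sq_sqrt (by positivity)
    have hrinv : r⁻¹ = √(mu / lam) := by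
      rw [hr, ← Real.sqrt_inv, inv_div]
    have hrQ : r ≤ Q := by
      apply Real.sqrt_le_sqrt
      exact div_le_div₀ hL1.le hl1 hL0 hm0
    have hrQ' : r⁻¹ ≤ Q := by
      rw [hrinv]
      apply Real.sqrt_le_sqrt
      exact div_le_div₀ hL1.le hm1 hL0 hl0
    set d : ℝ := C1 * e with hd
    have hd0 : 0 ≤ d := by positivity
    have hd1 : d ≤ 1 := (mul_le_mul_of_nonneg_left hcase hC10.le).trans he02
    set α : ℝ := |s - t| / T0 with hα
    set β : ℝ := |mu - lam| / L0 with hβ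
    have hα0 : 0 ≤ α := by positivity
    have hβ0 : 0 ≤ β := by positivity
    have hαe : α ≤ (1 / T0) * e := by
      rw [hα, div_eq_inv_mul, one_div]
      exact mul_le_mul_of_nonneg_left (by linarith [abs_nonneg (mu - lam)]) (by positivity)
    have hβe : β ≤ (1 / L0) * e := by
      rw [hβ, div_eq_inv_mul, one_div]
      exact mul_le_mul_of_nonneg_left (by linarith [abs_nonneg (s - t)]) (by positivity)
    have hprod : (1 + α) * (1 + β) ≤ 1 + d := by
      have h4 : α * β ≤ ((1 / T0) * e) * ((1 / L0) * e) := mul_le_mul hαe hβe hβ0 (by positivity)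
      have h5 : ((1 / T0) * e) * ((1 / L0) * e) ≤ (1 / (T0 * L0)) * e := by
        have : ((1 / T0) * e) * ((1 / L0) * e) = (1 / (T0 * L0)) * (e * e) := by
          field_simp
        rw [this]
        apply mul_le_mul_of_nonneg_left _ (by positivity)
        nlinarith
      have h6 : d = (1 / T0) * e + (1 / L0) * e + (1 / (T0 * L0)) * e := by
        rw [hd, hC1]; ring
      rw [h6]
      nlinarith
    have hr1 : r ≤ 1 + β := by
      have := sqrt_ratio hL0 hl0 hm0
      rwa [abs_sub_comm lam mu] at this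
    have hr1' : r⁻¹ ≤ 1 + β := by
      rw [hrinv]
      exact sqrt_ratio hL0 hm0 hl0
    -- comparison of the functions
    have cmp : ∀ u v : ℝ, T0 ≤ u → |v - u| = |s - t| → ∀ θ,
        h θ + v * k θ ≤ (1 + α) * (h θ + u * k θ) := by
      intro u v hu huv θ
      have i1 : v * k θ ≤ u * k θ + |s - t| * k θ := by
        rw [← huv, ← add_mul]
        apply mul_le_mul_of_nonneg_right _ (hk0 θ).le
        linarith [le_abs_self (v - u)]
      have i2 : |s - t| * k θ = α * (T0 * k θ) := by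
        rw [hα]; field_simp
      have i3 : T0 * k θ ≤ h θ + u * k θ := by
        have := mul_le_mul_of_nonneg_right hu (hk0 θ).le
        linarith [hh0 θ]
      have i4 := mul_le_mul_of_nonneg_left i3 hα0
      linarith
    have gpos : ∀ u, T0 ≤ u → u ≤ T1 → ∀ θ, 0 < h θ + u * k θ := fun u hu0 hu1 θ =>
      lt_of_lt_of_le ha0 (bd1 u hu0 hu1 θ)
    have in1 : ∀ θ, (fun θ => h θ + s * k θ) θ ≤ (1 + d) * (fun θ => r * (h θ + t * k θ)) θ := by
      intro θ
      show h θ + s * k θ ≤ (1 + d) * (r * (h θ + t * k θ))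
      have j1 := cmp t s ht0 rfl θ
      have g0 := gpos t ht0 ht1 θ
      have j2 : h θ + t * k θ ≤ (1 + β) * (r * (h θ + t * k θ)) := by
        have : h θ + t * k θ = r⁻¹ * (r * (h θ + t * k θ)) := by
          rw [← mul_assoc, inv_mul_cancel₀ hr0.ne', one_mul]
        calc h θ + t * k θ = r⁻¹ * (r * (h θ + t * k θ)) := this
          _ ≤ _ := mul_le_mul_of_nonneg_right hr1' (by positivity)
      calc h θ + s * k θ ≤ (1 + α) * (h θ + t * k θ) := j1
        _ ≤ (1 + α) * ((1 + β) * (r * (h θ + t * k θ))) :=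
            mul_le_mul_of_nonneg_left j2 (by positivity)
        _ = ((1 + α) * (1 + β)) * (r * (h θ + t * k θ)) := by ring
        _ ≤ (1 + d) * (r * (h θ + t * k θ)) := mul_le_mul_of_nonneg_right hprod (by positivity)
    have in2 : ∀ θ, (fun θ => r * (h θ + t * k θ)) θ ≤ (1 + d) * (fun θ => h θ + s * k θ) θ := by
      intro θ
      show r * (h θ + t * k θ) ≤ (1 + d) * (h θ + s * k θ)
      have j1 := cmp s t hs0 (abs_sub_comm t s) θ
      have g0 := gpos t ht0 ht1 θ
      have g1 := gpos s hs0 hs1 θ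
      calc r * (h θ + t * k θ) ≤ (1 + β) * ((1 + α) * (h θ + s * k θ)) :=
            mul_le_mul hr1 j1 g0.le (by positivity)
        _ = ((1 + α) * (1 + β)) * (h θ + s * k θ) := by ring
        _ ≤ (1 + d) * (h θ + s * k θ) := mul_le_mul_of_nonneg_right hprod g1.le
    -- the two domains
    have G1 : Good (a / Q) (b * Q) (Om fun θ => h θ + s * k θ) := by
      apply om_good (cg s) (pg s)
      · intro θ
        exact (div_le_self ha0.le hQ1).trans (bd1 s hs0 hs1 θ)
      · intro θ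
        exact (bd2 s hs0 hs1 θ).trans (le_mul_of_one_le_right hb0.le hQ1)
    have G2 : Good (a / Q) (b * Q) (Om fun θ => r * (h θ + t * k θ)) := by
      apply om_good (continuous_const.mul (cg t))
      · intro x
        show r * (h (x + 2 * π) + t * k (x + 2 * π)) = r * (h x + t * k x)
        rw [hh.2, hk.2]
      · intro θ
        have : Q⁻¹ ≤ r := by
          rw [inv_le_comm₀ hQ0 hr0]
          exact hrQ'
        rw [div_eq_inv_mul]
        exact mul_le_mul this (bd1 t ht0 ht1 θ) ha0.le hr0.le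
      · intro θ
        rw [mul_comm b Q]
        exact mul_le_mul hrQ (bd2 t ht0 ht1 θ) (gpos t ht0 ht1 θ).le hQ0.le
    have S2 : Solvable (Om fun θ => r * (h θ + t * k θ)) mu := by
      have := h2 (Om fun θ => h θ + t * k θ) lam r (om_open (cg t) (pg t)).measurableSet hr0 hSt
      rw [scaled_set hr0, hr2] at this
      have e1 : lam / (lam / mu) = mu := by field_simp
      rwa [e1] at this
    have key := hCMP _ _ mu d G1 G2 hm0 hm1 hSs S2 hd0 hd1 (om_incl hd0 in1) (om_incl hd0 in2)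
    rw [vol s hs0 hs1, ← scaled_set hr0, scaled_vol hr0, vol t ht0 ht1, hr2] at key
    have e2 : mu * area (fun θ => h θ + s * k θ) - lam * area (fun θ => h θ + t * k θ) =
        mu * (area (fun θ => h θ + s * k θ) - lam / mu * area (fun θ => h θ + t * k θ)) := by
      field_simp
    rw [e2, abs_mul, abs_of_pos hmu]
    have e3 : d * √d = (C1 * √C1) * (e * √e) := by
      rw [hd, Real.sqrt_mul hC10.le]; ring
    rw [e3] at key
    calc mu * |area (fun θ => h θ + s * k θ) - lam / mu * area (fun θ => h θ + t * k θ)| ≤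
        L1 * (C * ((C1 * √C1) * (e * √e))) := mul_le_mul hm1 key (abs_nonneg _) hL1.le
      _ = (L1 * (C * (C1 * √C1))) * (e * √e) := by ring
      _ ≤ (L1 * (C * (C1 * √C1)) + L1 * A / (e0 * √e0) + 1) * (e * √e) := by
          apply mul_le_mul_of_nonneg_right _ hee
          have : 0 ≤ L1 * A / (e0 * √e0) := by positivity
          linarith
  · -- large distance
    push Not at hcase
    obtain ⟨n1, n2⟩ := area_nn s hs0 hs1
    obtain ⟨n3, n4⟩ := area_nn t ht0 ht1
    have k1 : mu * area (fun θ => h θ + s * k θ) ≤ L1 * A := mul_le_mul hm1 n2 n1 hL1.le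
    have k2 : lam * area (fun θ => h θ + t * k θ) ≤ L1 * A := mul_le_mul hl1 n4 n3 hL1.le
    have k3 : 0 ≤ mu * area (fun θ => h θ + s * k θ) := by positivity
    have k4 : 0 ≤ lam * area (fun θ => h θ + t * k θ) := by positivity
    have k5 : |mu * area (fun θ => h θ + s * k θ) - lam * area (fun θ => h θ + t * k θ)| ≤
        L1 * A := by
      rw [abs_le]; constructor <;> linarith
    have k6 : e0 * √e0 ≤ e * √e := mul_le_mul hcase.le (Real.sqrt_le_sqrt hcase.le)
      (Real.sqrt_nonneg _) he_nn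
    have k7 : 0 < e0 * √e0 := by positivity
    have k8 : L1 * A ≤ L1 * A / (e0 * √e0) * (e * √e) := by
      rw [div_mul_eq_mul_div, le_div_iff₀ k7]
      exact mul_le_mul_of_nonneg_left k6 (by positivity)
    refine (k5.trans k8).trans ?_
    apply mul_le_mul_of_nonneg_right _ hee
    have : 0 ≤ L1 * (C * (C1 * √C1)) := by positivity
    linarith

end Pool.Agent.Y458.MK
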